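import Pool.Agent.Helper64.BC.MainT

/-!
# Baum–Connes with commutative coefficients for `SL_3(ℝ)`: the points with nondiscrete stabilizers

Let `G = SL_3(ℝ)` act on a second countable locally compact Hausdorff space `A`. The points of `A`
whose stabilizers are not discrete form a closed set, the Baum–Connes conjecture holds with
coefficients in the functions on it, and it holds for `A` if and only if it holds for the open
complement of this set. In particular it holds for all `G`-spaces all of whose stabilizers are
nondiscrete, and for the group `G` the open problem is reduced to the `G`-spaces all of whose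
stabilizers are discrete.

The proof stratifies `A` by invariants of the Lie algebras of the stabilizers (dimension, the
dimension of the associative algebra they generate and of its radical, central idempotents, the
signature of an invariant quadratic form); on each stratum there is a continuous equivariant map
to one of five homogeneous spaces of `G`. It includes a classification of the irreducible Lie
algebras of real 3 by 3 matrices of trace zero (they consist of all such matrices or preserve a
quadratic form).
-/

set_option autoImplicit false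

namespace Pool.Agent.Results.MP_aa9b81_an.NondiscreteStabilizers

open Pool.Agent.Q27.GS Pool.Agent.Q27.GT Pool.Agent.Helper64.BC Topology

theorem result (BC : GSp G3 → Prop) (h : Permanence BC) :
    (∀ A : GSp G3, ∃ (hc : IsClosed (nondiscretePart A))
      (hi : ∀ (g : G3) (x : A.X), x ∈ nondiscretePart A → g • x ∈ nondiscretePart A)
      (hi' : ∀ (g : G3) (x : A.X), x ∈ (nondiscretePart A)ᶜ → g • x ∈ (nondiscretePart A)ᶜ),
      BC (loc A (nondiscretePart A) hc.isLocallyClosed hi) ∧
      (BC A ↔ BC (loc A (nondiscretePart A)ᶜ hc.isOpen_compl.isLocallyClosed hi'))) ∧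
    ((∀ A : GSp G3, BC A) ↔
      ∀ A : GSp G3, (∀ x : A.X, DiscreteTopology (MulAction.stabilizer G3 x)) → BC A) := by
  have hgood : ∀ A : GSp G3, Good BC A (nondiscretePart A) := by
    intro A
    have h1 : nondiscretePart A = {x : A.X | hh A x ≠ ⊥} := nondiscrete_eq A
    rw [h1]
    have hF1 : Over BC (formStab (Matrix.diagonal 1)) := by
      have h2 : (Matrix.diagonal (1 : Fin 3 → ℝ) : M3) = 1 := Matrix.diagonal_one
      rw [h2]
      exact h.overCompact
    exact good_nondiscrete h.excision h.trivialAction h.overLineStab h.overPlaneStab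
      h.overDiagNorm hF1 h.overLorentz A
  have hmain : ∀ A : GSp G3, ∃ (hc : IsClosed (nondiscretePart A))
      (hi : ∀ (g : G3) (x : A.X), x ∈ nondiscretePart A → g • x ∈ nondiscretePart A)
      (hi' : ∀ (g : G3) (x : A.X), x ∈ (nondiscretePart A)ᶜ → g • x ∈ (nondiscretePart A)ᶜ),
      BC (loc A (nondiscretePart A) hc.isLocallyClosed hi) ∧
      (BC A ↔ BC (loc A (nondiscretePart A)ᶜ hc.isOpen_compl.isLocallyClosed hi')) := by
    intro A
    have hc : IsClosed (nondiscretePart A) := isClosed_nondiscrete A
    have hi : ∀ (g : G3) (x : A.X), x ∈ nondiscretePart A → g • x ∈ nondiscretePart A :=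
      fun g x hx => nondiscrete_smul A g x hx
    have hi' : ∀ (g : G3) (x : A.X), x ∈ (nondiscretePart A)ᶜ → g • x ∈ (nondiscretePart A)ᶜ := by
      intro g x hx hgx
      have := hi g⁻¹ _ hgx
      rw [inv_smul_smul] at this
      exact hx this
    have hZ := hgood A hc.isLocallyClosed hi
    refine ⟨hc, hi, hi', hZ, ?_⟩
    have hex := h.excision (loc A (nondiscretePart A) hc.isLocallyClosed hi) A
      (loc A (nondiscretePart A)ᶜ hc.isOpen_compl.isLocallyClosed hi') Subtype.val Subtype.val
      hc.isClosedEmbedding_subtypeVal hc.isOpen_compl.isOpenEmbedding_subtypeVal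
      (fun _ _ => rfl) (fun _ _ => rfl) ?_
    swap
    · ext x
      constructor
      · rintro ⟨y, rfl⟩ ⟨z, hz⟩
        exact y.2 (hz ▸ z.2)
      · intro hx
        by_cases hxn : x ∈ nondiscretePart A
        · exact absurd ⟨⟨x, hxn⟩, rfl⟩ hx
        · exact ⟨⟨x, hxn⟩, rfl⟩
    exact ⟨fun hA => hex.1 hZ hA, fun hW => hex.2.1 hZ hW⟩
  refine ⟨hmain, fun hall A _ => hall A, fun hd A => ?_⟩
  obtain ⟨hc, hi, hi', -, hiff⟩ := hmain A
  refine hiff.mpr (hd _ fun x => ?_)
  have h1 : DiscreteTopology (MulAction.stabilizer G3 x.1) := not_not.mp x.2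
  have h2 : MulAction.stabilizer G3 x = MulAction.stabilizer G3 x.1 := by
    ext g
    rw [MulAction.mem_stabilizer_iff, MulAction.mem_stabilizer_iff]
    exact Subtype.ext_iff
  rw [h2]
  exact h1

end Pool.Agent.Results.MP_aa9b81_an.NondiscreteStabilizers
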